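import Pool.Agent.L7h71.FP.Stm

set_option autoImplicit false

/-!
Part T of the theorem on closed groups with few orbits on subsets: triviality of the closure.
-/

namespace Pool.Agent.L7h26.FP

open Set Filter
open Pool.Agent.L7h71.FP

/-! ### Generalities on the closure -/

theorem acl_sub {G : PG} (hG : Oli G) {s t : Set ℕ} (hs : s.Finite) (h : t ⊆ acl G s) :
    acl G t ⊆ acl G s := by
  have h1 := acl_mono G h
  rwa [acl_acl hG hs] at h1

theorem acl_image {G : PG} {g : Equiv.Perm ℕ} (hg : g ∈ G) (s : Set ℕ) (x : ℕ) :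
    g x ∈ acl G (g '' s) ↔ x ∈ acl G s := by
  rw [← acl_conj hg]
  constructor
  · rintro ⟨y, hy, h⟩
    rw [← g.injective h]; exact hy
  · intro h; exact ⟨x, h, rfl⟩

/-- independent sets -/
def Ind (G : PG) (S : Set ℕ) : Prop := ∀ e ∈ S, e ∉ acl G (S \ {e})

theorem Ind.ins {G : PG} (hE : Exch G) {S : Set ℕ} (hf : S.Finite) (h : Ind G S) {y : ℕ}
    (hy : y ∉ acl G S) : Ind G (insert y S) := by
  have hyS : y ∉ S := fun h' => hy (subset_acl G S h')
  intro e he h1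
  rcases Set.mem_insert_iff.1 he with rfl | he
  · apply hy
    refine acl_mono G ?_ h1
    rintro w ⟨hw, hw'⟩
    exact (Set.mem_insert_iff.1 hw).resolve_left hw'
  · have hne : y ≠ e := fun h' => hyS (h' ▸ he)
    have h2 : insert y S \ {e} = insert y (S \ {e}) := by
      ext w
      simp only [Set.mem_sdiff, Set.mem_insert_iff, Set.mem_singleton_iff]
      constructor
      · rintro ⟨h3 | h3, h4⟩
        · exact Or.inl h3
        · exact Or.inr ⟨h3, h4⟩
      · rintro (h3 | ⟨h3, h4⟩)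
        · exact ⟨Or.inl h3, by rw [h3]; exact hne⟩
        · exact ⟨Or.inr h3, h4⟩
    rw [h2] at h1
    have h3 := hE (S \ {e}) (hf.subset Set.sdiff_subset) e y (h e he) h1
    rw [Set.insert_sdiff_singleton, Set.insert_eq_of_mem he] at h3
    exact hy h3

/-- three points in the same orbit -/
def E3 (G : PG) (z b x v u a : ℕ) : Prop := ∃ g ∈ G, g z = v ∧ g b = u ∧ g x = a

/-- the two ultrafilters -/
theorem exists_pq {G : PG} (hN : Nice G) {b x : ℕ} (h1 : b ∉ acl G {x}) (h2 : x ∉ acl G {b}) :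
    ∃ p q : Ultrafilter ℕ, NP p ∧ NP q ∧ (∀ᶠ b' in p, ∀ᶠ x' in q, E2 G b x b' x') := by
  have h1' : (O (st G {x}) b).Infinite := h1
  have h2' : (O (st G {b}) x).Infinite := h2
  obtain ⟨p, hp, hpO⟩ := exists_NP h1'
  -- the set of the partners
  have h3 : ∀ b' ∈ O (st G {x}) b, {x' | E2 G b x b' x'}.Infinite := by
    rintro _ ⟨g, hg, rfl⟩
    have h4 : g '' O (st G {b}) x ⊆ {x' | E2 G b x (g b) x'} := by
      rintro _ ⟨_, ⟨h, hh, rfl⟩, rfl⟩
      refine ⟨g * h, G.mul_mem hg.1 hh.1, ?_, rfl⟩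
      rw [Equiv.Perm.mul_apply, hh.2 b rfl]
    exact (h2'.image g.injective.injOn).mono h4
  have h4 : ∀ b' : ℕ, ∃ q : Ultrafilter ℕ, NP q ∧
      (b' ∈ O (st G {x}) b → {x' | E2 G b x b' x'} ∈ q) := by
    intro b'
    by_cases hb : b' ∈ O (st G {x}) b
    · obtain ⟨q, hq, hq'⟩ := exists_NP (h3 b' hb)
      exact ⟨q, hq, fun _ => hq'⟩
    · obtain ⟨q, hq, _⟩ := exists_NP (Set.infinite_univ (α := ℕ))
      exact ⟨q, hq, fun h => absurd h hb⟩
  choose Q hQ hQ' using h4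
  have hfin : Fin1 G := by
    have := hN.fin1 ∅ Set.finite_empty
    rwa [st_empty] at this
  -- a type which occurs almost everywhere
  have h5 : ∃ f ∈ {f : ℕ → Set ℕ | ∃ p, NP p ∧ f = T G p}, {b' | T G (Q b') = f} ∈ p := by
    by_contra hcon
    push Not at hcon
    have h6 : ∀ f ∈ {f : ℕ → Set ℕ | ∃ p, NP p ∧ f = T G p}, {b' | T G (Q b') ≠ f} ∈ p := by
      intro f hf
      have := Ultrafilter.compl_mem_iff_notMem.2 (hcon f hf)
      exact this
    have h7 : (⋂ f ∈ {f : ℕ → Set ℕ | ∃ p, NP p ∧ f = T G p}, {b' | T G (Q b') ≠ f}) ∈ p :=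
      (Filter.biInter_mem hfin).2 h6
    obtain ⟨b', hb'⟩ := (p.neBot.nonempty_of_mem h7)
    have := Set.mem_iInter₂.1 hb' (T G (Q b')) ⟨Q b', hQ b', rfl⟩
    exact this rfl
  obtain ⟨f, ⟨q, hq, rfl⟩, hf⟩ := h5
  refine ⟨p, q, hp, hq, ?_⟩
  filter_upwards [hf, hpO] with b' hb1 hb2
  have h8 := hQ' b' hb2
  obtain ⟨x', hx'⟩ := (h3 b' hb2).nonempty
  have h9 : {y | E2 G b x b' y} = O (st G {b'}) x' := by
    ext y
    constructor
    · intro hy
      exact E2_iff.1 (E2_trans (E2_symm hx') hy)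
    · intro hy
      exact E2_trans hx' (E2_iff.2 hy)
  have h10 : x' ∈ T G (Q b') b' := by
    show O (st G {b'}) x' ∈ Q b'
    rw [← h9]; exact h8
  have hb1' : T G (Q b') = T G q := hb1
  rw [hb1'] at h10
  have h11 : O (st G {b'}) x' ∈ q := h10
  rw [← h9] at h11
  exact h11

/-- the states of the recursion -/
structure Good (G : PG) (p q : Ultrafilter ℕ) (b x : ℕ) (s : Finset ℕ × Finset ℕ) : Prop where
  ind : Ind G ((s.1 : Set ℕ) ∪ s.2)
  dis : ∀ b' ∈ s.1, ∀ x' ∈ s.2, b' ≠ x'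
  hb : ∀ b' ∈ s.1, ∀ᶠ x' in q, E2 G b x b' x'
  hx : ∀ x' ∈ s.2, ∀ᶠ b' in p, E2 G b x b' x'
  hbx : ∀ b' ∈ s.1, ∀ x' ∈ s.2, E2 G b x b' x'

theorem Good.step {G : PG} (hN : Nice G) (hE : Exch G) {b x : ℕ} {p q : Ultrafilter ℕ}
    (hp : NP p) (hq : NP q) (hpq : ∀ᶠ b' in p, ∀ᶠ x' in q, E2 G b x b' x')
    (hqp : ∀ᶠ x' in q, ∀ᶠ b' in p, E2 G b x b' x') (s : Finset ℕ × Finset ℕ)
    (hs : Good G p q b x s) : ∃ b' x', b' ∉ s.1 ∧ x' ∉ s.2 ∧
      Good G p q b x (insert b' s.1, insert x' s.2) := by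
  have hf1 : ((s.1 : Set ℕ) ∪ s.2).Finite := s.1.finite_toSet.union s.2.finite_toSet
  have hacl : (acl G ((s.1 : Set ℕ) ∪ s.2)).Finite := acl_finite hN.oli hf1
  have e0 : ∀ᶠ b' in (p : Filter ℕ), b' ∉ acl G ((s.1 : Set ℕ) ∪ s.2) := hp.compl hacl
  have e1 : ∀ᶠ b' in (p : Filter ℕ), (∀ᶠ x' in (q : Filter ℕ), E2 G b x b' x') ∧
      b' ∉ acl G ((s.1 : Set ℕ) ∪ s.2) ∧ ∀ y ∈ s.2, E2 G b x b' y := by
    refine hpq.and (e0.and ?_)
    exact (Filter.eventually_all_finset s.2).2 fun y hy => hs.hx y hy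
  obtain ⟨b', hb1, hb2, hb3⟩ := e1.exists
  have hInd' : Ind G (insert b' ((s.1 : Set ℕ) ∪ s.2)) := hs.ind.ins hE hf1 hb2
  have hf2 : (insert b' ((s.1 : Set ℕ) ∪ s.2)).Finite := hf1.insert _
  have hacl' : (acl G (insert b' ((s.1 : Set ℕ) ∪ s.2))).Finite := acl_finite hN.oli hf2
  have e0' : ∀ᶠ x' in (q : Filter ℕ), x' ∉ acl G (insert b' ((s.1 : Set ℕ) ∪ s.2)) :=
    hq.compl hacl'
  have e2 : ∀ᶠ x' in (q : Filter ℕ), (∀ᶠ b' in (p : Filter ℕ), E2 G b x b' x') ∧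
      x' ∉ acl G (insert b' ((s.1 : Set ℕ) ∪ s.2)) ∧ E2 G b x b' x' ∧
      ∀ y ∈ s.1, E2 G b x y x' := by
    refine hqp.and (e0'.and (hb1.and ?_))
    exact (Filter.eventually_all_finset s.1).2 fun y hy => hs.hb y hy
  obtain ⟨x', hx1, hx2, hx3, hx4⟩ := e2.exists
  have hInd'' : Ind G (insert x' (insert b' ((s.1 : Set ℕ) ∪ s.2))) := hInd'.ins hE hf2 hx2
  have hbS : b' ∉ ((s.1 : Set ℕ) ∪ s.2) := fun h => hb2 (subset_acl G _ h)
  have hxS : x' ∉ (insert b' ((s.1 : Set ℕ) ∪ s.2)) := fun h => hx2 (subset_acl G _ h)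
  refine ⟨b', x', fun h => hbS (Or.inl h), fun h => hxS (Or.inr (Or.inr h)), ?_⟩
  constructor
  · have : ((insert b' s.1 : Finset ℕ) : Set ℕ) ∪ (insert x' s.2 : Finset ℕ) =
        insert x' (insert b' ((s.1 : Set ℕ) ∪ s.2)) := by
      rw [Finset.coe_insert, Finset.coe_insert, Set.insert_union, Set.union_insert,
        Set.insert_comm]
    show Ind G (((insert b' s.1 : Finset ℕ) : Set ℕ) ∪ (insert x' s.2 : Finset ℕ))
    rw [this]; exact hInd''
  · intro u hu v hv huv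
    simp only [Finset.mem_insert] at hu hv
    subst huv
    rcases hu with rfl | hu
    · rcases hv with rfl | hv
      · exact hxS (Or.inl rfl)
      · exact hbS (Or.inr hv)
    · rcases hv with rfl | hv
      · exact hxS (Or.inr (Or.inl hu))
      · exact hs.dis _ hu _ hv rfl
  · intro u hu
    simp only [Finset.mem_insert] at hu
    rcases hu with rfl | hu
    · exact hb1
    · exact hs.hb u hu
  · intro u hu
    simp only [Finset.mem_insert] at hu
    rcases hu with rfl | hu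
    · exact hx1
    · exact hs.hx u hu
  · intro u hu v hv
    simp only [Finset.mem_insert] at hu hv
    rcases hu with rfl | hu
    · rcases hv with rfl | hv
      · exact hx3
      · exact hb3 v hv
    · rcases hv with rfl | hv
      · exact hx4 u hu
      · exact hs.hbx u hu v hv

/-- the two sequences -/
theorem exists_bx {G : PG} (hN : Nice G) (hE : Exch G) {b x : ℕ} (h1 : b ∉ acl G {x})
    (h2 : x ∉ acl G {b}) : ∃ B X : ℕ → ℕ, (∀ k i, E2 G b x (B k) (X i)) ∧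
      (∀ k i, B k ≠ X i) ∧ Function.Injective B ∧ Function.Injective X ∧
      ∀ F : Set ℕ, F.Finite → F ⊆ range B ∪ range X → ∀ e ∈ range B ∪ range X,
        e ∈ acl G F → e ∈ F := by
  obtain ⟨p, q, hp, hq, hpq⟩ := exists_pq hN h1 h2
  have hqp : ∀ᶠ x' in q, ∀ᶠ b' in p, E2 G b x b' x' := by
    have := hN.com ∅ Set.finite_empty
    rw [st_empty] at this
    exact this p q hp hq b x hpq
  have hstep := Good.step hN hE hp hq hpq hqp
  choose! fb fx h3 h4 h5 using hstep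
  let sq : ℕ → Finset ℕ × Finset ℕ := fun n =>
    Nat.rec (∅, ∅) (fun _ s => (insert (fb s) s.1, insert (fx s) s.2)) n
  have hsq : ∀ n, sq (n + 1) = (insert (fb (sq n)) (sq n).1, insert (fx (sq n)) (sq n).2) :=
    fun n => rfl
  have hgood : ∀ n, Good G p q b x (sq n) := by
    intro n
    induction n with
    | zero =>
      constructor
      · intro e he
        exfalso
        have : e ∈ ((∅ : Finset ℕ) : Set ℕ) ∪ (∅ : Finset ℕ) := he
        simp at this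
      · intro b' hb'
        have : b' ∈ (∅ : Finset ℕ) := hb'
        simp at this
      · intro b' hb'
        have : b' ∈ (∅ : Finset ℕ) := hb'
        simp at this
      · intro b' hb'
        have : b' ∈ (∅ : Finset ℕ) := hb'
        simp at this
      · intro b' hb'
        have : b' ∈ (∅ : Finset ℕ) := hb'
        simp at this
    | succ n ih => rw [hsq]; exact h5 _ ih
  have hm1 : Monotone fun n => (sq n).1 := by
    refine monotone_nat_of_le_succ fun n => ?_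
    show (sq n).1 ⊆ (sq (n + 1)).1
    rw [hsq]; exact Finset.subset_insert _ _
  have hm2 : Monotone fun n => (sq n).2 := by
    refine monotone_nat_of_le_succ fun n => ?_
    show (sq n).2 ⊆ (sq (n + 1)).2
    rw [hsq]; exact Finset.subset_insert _ _
  have hB : ∀ m n, m < n → fb (sq m) ∈ (sq n).1 := by
    intro m n hmn
    have h6 : (sq (m + 1)).1 ⊆ (sq n).1 := hm1 hmn
    apply h6
    rw [hsq]; exact Finset.mem_insert_self _ _
  have hX : ∀ m n, m < n → fx (sq m) ∈ (sq n).2 := by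
    intro m n hmn
    have h6 : (sq (m + 1)).2 ⊆ (sq n).2 := hm2 hmn
    apply h6
    rw [hsq]; exact Finset.mem_insert_self _ _
  refine ⟨fun n => fb (sq n), fun n => fx (sq n), ?_, ?_, ?_, ?_, ?_⟩
  · intro k i
    exact (hgood (max k i + 1)).hbx _ (hB k (max k i + 1) (by omega)) _
      (hX i (max k i + 1) (by omega))
  · intro k i
    exact (hgood (max k i + 1)).dis _ (hB k (max k i + 1) (by omega)) _
      (hX i (max k i + 1) (by omega))
  · intro m n hmn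
    have hmn' : fb (sq m) = fb (sq n) := hmn
    by_contra hne
    rcases Nat.lt_or_gt_of_ne hne with h | h
    · exact h3 _ (hgood n) (hmn' ▸ hB m n h)
    · exact h3 _ (hgood m) (hmn'.symm ▸ hB n m h)
  · intro m n hmn
    have hmn' : fx (sq m) = fx (sq n) := hmn
    by_contra hne
    rcases Nat.lt_or_gt_of_ne hne with h | h
    · exact h4 _ (hgood n) (hmn' ▸ hX m n h)
    · exact h4 _ (hgood m) (hmn'.symm ▸ hX n m h)
  · intro F hF hFs e he heF
    by_contra hne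
    have h6 : ∀ y ∈ range (fun n => fb (sq n)) ∪ range (fun n => fx (sq n)),
        ∀ᶠ n in atTop, y ∈ ((sq n).1 : Set ℕ) ∪ (sq n).2 := by
      rintro y (⟨m, rfl⟩ | ⟨m, rfl⟩)
      · filter_upwards [eventually_gt_atTop m] with n hn
        exact Or.inl (hB m n hn)
      · filter_upwards [eventually_gt_atTop m] with n hn
        exact Or.inr (hX m n hn)
    have h7 : ∀ᶠ n in atTop, ∀ y ∈ F, y ∈ ((sq n).1 : Set ℕ) ∪ (sq n).2 :=
      (Filter.eventually_all_finite hF).2 fun y hy => h6 y (hFs hy)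
    obtain ⟨n, h8, h9⟩ := (h7.and (h6 e he)).exists
    refine (hgood n).ind e h9 (acl_mono G ?_ heF)
    intro y hy
    refine ⟨h8 y hy, ?_⟩
    rintro rfl
    exact hne hy

/-! ### The configuration -/

/-- the configuration -/
structure Cfg (G : PG) (b x z : ℕ) (B X : ℕ → ℕ) (Z : ℕ → ℕ → ℕ) : Prop where
  oli : Oli G
  az : z ∈ acl G {b, x}
  ab : b ∈ acl G {z, x}
  ax : x ∈ acl G {z, b}
  nzb : z ≠ b
  nzx : z ≠ x
  nbx : b ≠ x
  hZ : ∀ i k, E3 G z b x (Z i k) (B k) (X i)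
  hBX : ∀ k i, B k ≠ X i
  hB : Function.Injective B
  hX : Function.Injective X
  ind : ∀ F : Set ℕ, F.Finite → F ⊆ range B ∪ range X → ∀ e ∈ range B ∪ range X,
    e ∈ acl G F → e ∈ F

/-- the kinds of points -/
abbrev Kd : Type := Option ℕ × Option ℕ

/-- the points -/
def val (B X : ℕ → ℕ) (Z : ℕ → ℕ → ℕ) : Kd → ℕ
  | (some k, some i) => Z i k
  | (some k, none) => B k
  | (none, some i) => X i
  | (none, none) => 0

/-- the supports -/
def supp (B X : ℕ → ℕ) (κ : Kd) : Set ℕ :=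
  {n | ∃ k, κ.1 = some k ∧ n = B k} ∪ {n | ∃ i, κ.2 = some i ∧ n = X i}

theorem supp_fin (B X : ℕ → ℕ) (κ : Kd) : (supp B X κ).Finite := by
  refine Set.Finite.union ?_ ?_
  · refine Set.Subsingleton.finite ?_
    rintro _ ⟨k, hk, rfl⟩ _ ⟨k', hk', rfl⟩
    rw [hk] at hk'
    rw [Option.some.inj hk']
  · refine Set.Subsingleton.finite ?_
    rintro _ ⟨k, hk, rfl⟩ _ ⟨k', hk', rfl⟩
    rw [hk] at hk'
    rw [Option.some.inj hk']

theorem supp_sub (B X : ℕ → ℕ) (κ : Kd) : supp B X κ ⊆ range B ∪ range X := by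
  rintro _ (⟨k, _, rfl⟩ | ⟨i, _, rfl⟩)
  · exact Or.inl ⟨k, rfl⟩
  · exact Or.inr ⟨i, rfl⟩

theorem E3.mem1 {G : PG} {z b x v u a : ℕ} (h : E3 G z b x v u a) (hz : z ∈ acl G {b, x}) :
    v ∈ acl G {u, a} := by
  obtain ⟨g, hg, rfl, rfl, rfl⟩ := h
  rw [← Set.image_pair, acl_image hg]; exact hz

theorem E3.mem2 {G : PG} {z b x v u a : ℕ} (h : E3 G z b x v u a) (hb : b ∈ acl G {z, x}) :
    u ∈ acl G {v, a} := by
  obtain ⟨g, hg, rfl, rfl, rfl⟩ := h
  rw [← Set.image_pair, acl_image hg]; exact hb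

theorem E3.mem3 {G : PG} {z b x v u a : ℕ} (h : E3 G z b x v u a) (hx : x ∈ acl G {z, b}) :
    a ∈ acl G {v, u} := by
  obtain ⟨g, hg, rfl, rfl, rfl⟩ := h
  rw [← Set.image_pair, acl_image hg]; exact hx

variable {G : PG} {b x z : ℕ} {B X : ℕ → ℕ} {Z : ℕ → ℕ → ℕ}

theorem Cfg.val_mem (h : Cfg G b x z B X Z) {κ : Kd} (hκ : κ ≠ (none, none)) :
    val B X Z κ ∈ acl G (supp B X κ) := by
  obtain ⟨β, ξ⟩ := κ
  cases β with
  | none =>
    cases ξ with
    | none => exact absurd rfl hκ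
    | some i => exact subset_acl G _ (Or.inr ⟨i, rfl, rfl⟩)
  | some k =>
    cases ξ with
    | none => exact subset_acl G _ (Or.inl ⟨k, rfl, rfl⟩)
    | some i =>
      have h1 : Z i k ∈ acl G {B k, X i} := (h.hZ i k).mem1 h.az
      refine acl_mono G ?_ h1
      rintro y (rfl | rfl)
      · exact Or.inl ⟨k, rfl, rfl⟩
      · exact Or.inr ⟨i, rfl, rfl⟩

theorem Cfg.sup1 (h : Cfg G b x z B X Z) {κ : Kd} {W : Set ℕ} (hW : W.Finite)
    (hWs : W ⊆ range B ∪ range X) (hκ : κ ≠ (none, none)) (hv : val B X Z κ ∈ acl G W) :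
    supp B X κ ⊆ W := by
  obtain ⟨β, ξ⟩ := κ
  cases β with
  | none =>
    cases ξ with
    | none => exact absurd rfl hκ
    | some i =>
      rintro _ (⟨k', hk', rfl⟩ | ⟨i', hi', rfl⟩)
      · exact absurd hk' (by simp)
      · have : i = i' := Option.some.inj hi'
        subst this
        exact h.ind W hW hWs _ (Or.inr ⟨i, rfl⟩) hv
  | some k =>
    cases ξ with
    | none =>
      rintro _ (⟨k', hk', rfl⟩ | ⟨i', hi', rfl⟩)
      · have : k = k' := Option.some.inj hk'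
        subst this
        exact h.ind W hW hWs _ (Or.inl ⟨k, rfl⟩) hv
      · exact absurd hi' (by simp)
    | some i =>
      have hv' : Z i k ∈ acl G W := hv
      rintro _ (⟨k', hk', rfl⟩ | ⟨i', hi', rfl⟩)
      · have : k = k' := Option.some.inj hk'
        subst this
        have h1 : B k ∈ acl G {Z i k, X i} := (h.hZ i k).mem2 h.ab
        have h2 : acl G {Z i k, X i} ⊆ acl G (insert (X i) W) := by
          refine acl_sub h.oli (hW.insert _) ?_
          rintro y (rfl | rfl)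
          · exact acl_mono G (Set.subset_insert _ _) hv'
          · exact subset_acl G _ (Set.mem_insert _ _)
        have h3 := h.ind (insert (X i) W) (hW.insert _)
          (Set.insert_subset (Or.inr ⟨i, rfl⟩) hWs) _ (Or.inl ⟨k, rfl⟩) (h2 h1)
        exact (Set.mem_insert_iff.1 h3).resolve_left (h.hBX k i)
      · have : i = i' := Option.some.inj hi'
        subst this
        have h1 : X i ∈ acl G {Z i k, B k} := (h.hZ i k).mem3 h.ax
        have h2 : acl G {Z i k, B k} ⊆ acl G (insert (B k) W) := by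
          refine acl_sub h.oli (hW.insert _) ?_
          rintro y (rfl | rfl)
          · exact acl_mono G (Set.subset_insert _ _) hv'
          · exact subset_acl G _ (Set.mem_insert _ _)
        have h3 := h.ind (insert (B k) W) (hW.insert _)
          (Set.insert_subset (Or.inl ⟨k, rfl⟩) hWs) _ (Or.inr ⟨i, rfl⟩) (h2 h1)
        exact (Set.mem_insert_iff.1 h3).resolve_left (h.hBX k i).symm

theorem Cfg.sup2 (h : Cfg G b x z B X Z) {κ κ1 κ2 : Kd} (hκ : κ ≠ (none, none))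
    (hκ1 : κ1 ≠ (none, none)) (hκ2 : κ2 ≠ (none, none))
    (hv : val B X Z κ ∈ acl G {val B X Z κ1, val B X Z κ2}) :
    (κ.1 = none ∨ κ.1 = κ1.1 ∨ κ.1 = κ2.1) ∧ (κ.2 = none ∨ κ.2 = κ1.2 ∨ κ.2 = κ2.2) := by
  have h1 : acl G {val B X Z κ1, val B X Z κ2} ⊆ acl G (supp B X κ1 ∪ supp B X κ2) := by
    refine acl_sub h.oli ((supp_fin _ _ _).union (supp_fin _ _ _)) ?_
    rintro y (rfl | rfl)
    · exact acl_mono G Set.subset_union_left (h.val_mem hκ1)
    · exact acl_mono G Set.subset_union_right (h.val_mem hκ2)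
  have h2 := h.sup1 ((supp_fin _ _ _).union (supp_fin _ _ _))
    (Set.union_subset (supp_sub _ _ _) (supp_sub _ _ _)) hκ (h1 hv)
  constructor
  · rcases h3 : κ.1 with _ | k
    · exact Or.inl rfl
    · right
      have h4 : B k ∈ supp B X κ1 ∪ supp B X κ2 := h2 (Or.inl ⟨k, h3, rfl⟩)
      rcases h4 with (⟨k', hk', e⟩ | ⟨i', hi', e⟩) | (⟨k', hk', e⟩ | ⟨i', hi', e⟩)
      · left; rw [hk', h.hB e]
      · exact absurd e (h.hBX _ _)
      · right; rw [hk', h.hB e]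
      · exact absurd e (h.hBX _ _)
  · rcases h3 : κ.2 with _ | i
    · exact Or.inl rfl
    · right
      have h4 : X i ∈ supp B X κ1 ∪ supp B X κ2 := h2 (Or.inr ⟨i, h3, rfl⟩)
      rcases h4 with (⟨k', hk', e⟩ | ⟨i', hi', e⟩) | (⟨k', hk', e⟩ | ⟨i', hi', e⟩)
      · exact absurd e.symm (h.hBX _ _)
      · left; rw [hi', h.hX e]
      · exact absurd e.symm (h.hBX _ _)
      · right; rw [hi', h.hX e]

theorem Cfg.inj (h : Cfg G b x z B X Z) {κ κ1 : Kd} (hκ : κ ≠ (none, none))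
    (hκ1 : κ1 ≠ (none, none)) (hv : val B X Z κ = val B X Z κ1) : κ = κ1 := by
  have h1 : val B X Z κ ∈ acl G {val B X Z κ1, val B X Z κ1} :=
    subset_acl G _ (by simp [hv])
  have h2 : val B X Z κ1 ∈ acl G {val B X Z κ, val B X Z κ} :=
    subset_acl G _ (by simp [hv])
  have h3 := h.sup2 hκ hκ1 hκ1 h1
  have h4 := h.sup2 hκ1 hκ hκ h2
  obtain ⟨β, ξ⟩ := κ
  obtain ⟨β1, ξ1⟩ := κ1
  grind

/-- the condition on the indices -/
def Tr (a b c : Option ℕ) : Prop := (a = none ∨ a = b ∨ a = c) ∧ (b = none ∨ b = a ∨ b = c) ∧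
  (c = none ∨ c = a ∨ c = b)

theorem Cfg.trip (h : Cfg G b x z B X Z) {κ1 κ2 κ3 : Kd} (hκ1 : κ1 ≠ (none, none))
    (hκ2 : κ2 ≠ (none, none)) (hκ3 : κ3 ≠ (none, none))
    (hv : E3 G z b x (val B X Z κ1) (val B X Z κ2) (val B X Z κ3)) :
    Tr κ1.1 κ2.1 κ3.1 ∧ Tr κ1.2 κ2.2 κ3.2 ∧ κ1 ≠ κ2 ∧ κ1 ≠ κ3 ∧ κ2 ≠ κ3 := by
  have h1 := h.sup2 hκ1 hκ2 hκ3 (hv.mem1 h.az)
  have h2 := h.sup2 hκ2 hκ1 hκ3 (hv.mem2 h.ab)
  have h3 := h.sup2 hκ3 hκ1 hκ2 (hv.mem3 h.ax)
  refine ⟨⟨h1.1, h2.1, h3.1⟩, ⟨h1.2, h2.2, h3.2⟩, ?_, ?_, ?_⟩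
  · rintro rfl
    obtain ⟨g, hg, e1, e2, e3⟩ := hv
    exact h.nzb (g.injective (e1.trans e2.symm))
  · rintro rfl
    obtain ⟨g, hg, e1, e2, e3⟩ := hv
    exact h.nzx (g.injective (e1.trans e3.symm))
  · rintro rfl
    obtain ⟨g, hg, e1, e2, e3⟩ := hv
    exact h.nbx (g.injective (e2.trans e3.symm))

theorem kind_x {κ1 κ2 : Kd} {i : ℕ} (hκ1 : κ1 ≠ (none, none)) (hκ2 : κ2 ≠ (none, none))
    (h1 : Tr κ1.1 κ2.1 none) (h2 : Tr κ1.2 κ2.2 (some i)) (h3 : κ1 ≠ κ2)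
    (h4 : κ1 ≠ (none, some i)) (h5 : κ2 ≠ (none, some i)) :
    ∃ k, (κ1 = (some k, none) ∧ κ2 = (some k, some i)) ∨
      (κ1 = (some k, some i) ∧ κ2 = (some k, none)) := by
  obtain ⟨β1, ξ1⟩ := κ1
  obtain ⟨β2, ξ2⟩ := κ2
  unfold Tr at h1 h2
  cases β1 <;> cases ξ1 <;> cases β2 <;> cases ξ2 <;> grind

theorem kind_b {κ1 κ2 : Kd} {k : ℕ} (hκ1 : κ1 ≠ (none, none)) (hκ2 : κ2 ≠ (none, none))
    (h1 : Tr κ1.1 κ2.1 (some k)) (h2 : Tr κ1.2 κ2.2 none) (h3 : κ1 ≠ κ2)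
    (h4 : κ1 ≠ (some k, none)) (h5 : κ2 ≠ (some k, none)) :
    ∃ i, (κ1 = (none, some i) ∧ κ2 = (some k, some i)) ∨
      (κ1 = (some k, some i) ∧ κ2 = (none, some i)) := by
  obtain ⟨β1, ξ1⟩ := κ1
  obtain ⟨β2, ξ2⟩ := κ2
  unfold Tr at h1 h2
  cases β1 <;> cases ξ1 <;> cases β2 <;> cases ξ2 <;> grind

theorem kind_z {κ1 κ2 : Kd} {k i : ℕ} (hκ1 : κ1 ≠ (none, none)) (hκ2 : κ2 ≠ (none, none))
    (h1 : Tr κ1.1 κ2.1 (some k)) (h2 : Tr κ1.2 κ2.2 (some i)) (h3 : κ1 ≠ κ2)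
    (h4 : κ1 ≠ (some k, some i)) (h5 : κ2 ≠ (some k, some i)) :
    (κ1 = (none, some i) ∧ κ2 = (some k, none)) ∨ (κ1 = (some k, none) ∧ κ2 = (none, some i)) := by
  obtain ⟨β1, ξ1⟩ := κ1
  obtain ⟨β2, ξ2⟩ := κ2
  unfold Tr at h1 h2
  cases β1 <;> cases ξ1 <;> cases β2 <;> cases ξ2 <;> grind

/-! ### Counting -/

/-- the pairs which form a triple with a point -/
def Pr (G : PG) (z b x : ℕ) (A : Set ℕ) (a : ℕ) : Set (ℕ × ℕ) :=
  {t | t.1 ∈ A ∧ t.2 ∈ A ∧ E3 G z b x t.2 t.1 a}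

theorem Pr_image {G : PG} {g : Equiv.Perm ℕ} (hg : g ∈ G) (z b x : ℕ) (A A' : Set ℕ)
    (hA : ∀ n, g n ∈ A' ↔ n ∈ A) (a : ℕ) :
    (Pr G z b x A' (g a)).encard = (Pr G z b x A a).encard := by
  have h1 : Pr G z b x A' (g a) = (fun t : ℕ × ℕ => (g t.1, g t.2)) '' Pr G z b x A a := by
    ext ⟨u, v⟩
    constructor
    · rintro ⟨h1, h2, g', hg', e1, e2, e3⟩
      refine ⟨(g⁻¹ u, g⁻¹ v), ⟨?_, ?_, g⁻¹ * g', G.mul_mem (G.inv_mem hg) hg', ?_, ?_, ?_⟩, ?_⟩
      · rw [← hA]; simpa using h1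
      · rw [← hA]; simpa using h2
      · simp [e1]
      · simp [e2]
      · simp [e3]
      · simp
    · rintro ⟨⟨u', v'⟩, ⟨h1, h2, g', hg', e1, e2, e3⟩, h3⟩
      simp only [Prod.mk.injEq] at h3 h1 h2 e1 e2
      obtain ⟨rfl, rfl⟩ := h3
      refine ⟨(hA _).2 h1, (hA _).2 h2, g * g', G.mul_mem hg hg', ?_, ?_, ?_⟩
      · simp [e1]
      · simp [e2]
      · simp [e3]
  rw [h1]
  refine Function.Injective.encard_image ?_ _
  rintro ⟨u, v⟩ ⟨u', v'⟩ h
  simp only [Prod.mk.injEq, EmbeddingLike.apply_eq_iff_eq] at h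
  rw [h.1, h.2]

/-- the kinds which occur -/
def Al (f : ℕ → ℕ) : Kd → Prop
  | (some k, some i) => k < f i
  | (some _, none) => True
  | (none, some _) => True
  | (none, none) => False

theorem Al.ne {f : ℕ → ℕ} {κ : Kd} (h : Al f κ) : κ ≠ (none, none) := by
  rintro rfl; exact h

/-- the sets -/
def AA (B X : ℕ → ℕ) (Z : ℕ → ℕ → ℕ) (f : ℕ → ℕ) : Set ℕ := {n | ∃ κ, Al f κ ∧ val B X Z κ = n}

theorem Cfg.pr_x (h : Cfg G b x z B X Z) (f : ℕ → ℕ) (i : ℕ) :
    (f i : ℕ∞) ≤ (Pr G z b x (AA B X Z f) (X i)).encard ∧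
      (Pr G z b x (AA B X Z f) (X i)).encard ≤ ((2 * f i : ℕ) : ℕ∞) := by
  constructor
  · have h1 : (fun k => (B k, Z i k)) '' (Set.Iio (f i)) ⊆ Pr G z b x (AA B X Z f) (X i) := by
      rintro _ ⟨k, hk, rfl⟩
      exact ⟨⟨(some k, none), trivial, rfl⟩, ⟨(some k, some i), hk, rfl⟩, h.hZ i k⟩
    have h2 : ((fun k => (B k, Z i k)) '' (Set.Iio (f i))).encard = (f i : ℕ∞) := by
      rw [Set.InjOn.encard_image]
      · rw [Set.encard_eq_coe_toFinset_card]
        simp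
      · intro k _ k' _ e
        simp only [Prod.mk.injEq] at e
        exact h.hB e.1
    rw [← h2]; exact Set.encard_le_encard h1
  · have h1 : Pr G z b x (AA B X Z f) (X i) ⊆
        (fun k => (B k, Z i k)) '' (Set.Iio (f i)) ∪ (fun k => (Z i k, B k)) '' (Set.Iio (f i)) := by
      rintro ⟨_, _⟩ ⟨⟨κ2, hκ2, rfl⟩, ⟨κ1, hκ1, rfl⟩, h3⟩
      have h3' : E3 G z b x (val B X Z κ1) (val B X Z κ2) (val B X Z (none, some i)) := h3
      obtain ⟨t1, t2, t3, t4, t5⟩ := h.trip hκ1.ne hκ2.ne (by simp) h3'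
      obtain ⟨k, (⟨rfl, rfl⟩ | ⟨rfl, rfl⟩)⟩ := kind_x hκ1.ne hκ2.ne t1 t2 t3 t4 t5
      · exact Or.inr ⟨k, hκ2, rfl⟩
      · exact Or.inl ⟨k, hκ1, rfl⟩
    have h2 : (Set.Iio (f i)).encard = (f i : ℕ∞) := by
      rw [Set.encard_eq_coe_toFinset_card]
      simp
    refine (Set.encard_le_encard h1).trans ((Set.encard_union_le _ _).trans ?_)
    refine (add_le_add (Set.encard_image_le _ _) (Set.encard_image_le _ _)).trans ?_
    rw [h2]
    push_cast
    rw [two_mul]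

theorem Cfg.pr_z (h : Cfg G b x z B X Z) (f : ℕ → ℕ) (i k : ℕ) :
    (Pr G z b x (AA B X Z f) (Z i k)).encard ≤ 2 := by
  have h1 : Pr G z b x (AA B X Z f) (Z i k) ⊆ {(B k, X i), (X i, B k)} := by
    rintro ⟨_, _⟩ ⟨⟨κ2, hκ2, rfl⟩, ⟨κ1, hκ1, rfl⟩, h3⟩
    have h3' : E3 G z b x (val B X Z κ1) (val B X Z κ2) (val B X Z (some k, some i)) := h3
    obtain ⟨t1, t2, t3, t4, t5⟩ := h.trip hκ1.ne hκ2.ne (by simp) h3'
    rcases kind_z hκ1.ne hκ2.ne t1 t2 t3 t4 t5 with ⟨rfl, rfl⟩ | ⟨rfl, rfl⟩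
    · exact Or.inl rfl
    · exact Or.inr rfl
  refine (Set.encard_le_encard h1).trans ?_
  refine (Set.encard_insert_le _ _).trans ?_
  rw [Set.encard_singleton, one_add_one_eq_two]

theorem Cfg.pr_b (h : Cfg G b x z B X Z) (f : ℕ → ℕ) (hf : Tendsto f atTop atTop) (k : ℕ) :
    (Pr G z b x (AA B X Z f) (B k)).encard = 0 ∨ (Pr G z b x (AA B X Z f) (B k)).encard = ⊤ := by
  rcases Set.eq_empty_or_nonempty (Pr G z b x (AA B X Z f) (B k)) with h0 | ⟨⟨u, v⟩, hp⟩
  · left; rw [h0]; simp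
  right
  rw [Set.encard_eq_top_iff]
  obtain ⟨⟨κ2, hκ2, rfl⟩, ⟨κ1, hκ1, rfl⟩, h3⟩ := hp
  have h3' : E3 G z b x (val B X Z κ1) (val B X Z κ2) (val B X Z (some k, none)) := h3
  obtain ⟨t1, t2, t3, t4, t5⟩ := h.trip hκ1.ne hκ2.ne (by simp) h3'
  obtain ⟨N, hN⟩ := eventually_atTop.1 (hf.eventually_gt_atTop k)
  obtain ⟨i, (⟨rfl, rfl⟩ | ⟨rfl, rfl⟩)⟩ := kind_b hκ1.ne hκ2.ne t1 t2 t3 t4 t5
  · -- `v = X i`, `u = Z i k`
    have hE : E3 G z b x x z b := by
      obtain ⟨g, hg, e1, e2, e3⟩ := h3'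
      obtain ⟨g', hg', e1', e2', e3'⟩ := h.hZ i k
      refine ⟨g'⁻¹ * g, G.mul_mem (G.inv_mem hg') hg, ?_, ?_, ?_⟩
      · rw [Equiv.Perm.mul_apply, e1, Equiv.Perm.inv_eq_iff_eq]; exact e3'.symm
      · rw [Equiv.Perm.mul_apply, e2, Equiv.Perm.inv_eq_iff_eq]; exact e1'.symm
      · rw [Equiv.Perm.mul_apply, e3, Equiv.Perm.inv_eq_iff_eq]; exact e2'.symm
    have h4 : (fun j => (Z j k, X j)) '' (Set.Ici N) ⊆ Pr G z b x (AA B X Z f) (B k) := by
      rintro _ ⟨j, hj, rfl⟩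
      refine ⟨⟨(some k, some j), hN j hj, rfl⟩, ⟨(none, some j), trivial, rfl⟩, ?_⟩
      obtain ⟨g, hg, e1, e2, e3⟩ := hE
      obtain ⟨g', hg', e1', e2', e3'⟩ := h.hZ j k
      refine ⟨g' * g, G.mul_mem hg' hg, ?_, ?_, ?_⟩
      · rw [Equiv.Perm.mul_apply, e1, e3']
      · rw [Equiv.Perm.mul_apply, e2, e1']
      · rw [Equiv.Perm.mul_apply, e3, e2']
    refine Set.Infinite.mono h4 (Set.Infinite.image ?_ (Set.Ici_infinite N))
    intro j _ j' _ e
    simp only [Prod.mk.injEq] at e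
    exact h.hX e.2
  · have hE : E3 G z b x z x b := by
      obtain ⟨g, hg, e1, e2, e3⟩ := h3'
      obtain ⟨g', hg', e1', e2', e3'⟩ := h.hZ i k
      refine ⟨g'⁻¹ * g, G.mul_mem (G.inv_mem hg') hg, ?_, ?_, ?_⟩
      · rw [Equiv.Perm.mul_apply, e1, Equiv.Perm.inv_eq_iff_eq]; exact e1'.symm
      · rw [Equiv.Perm.mul_apply, e2, Equiv.Perm.inv_eq_iff_eq]; exact e3'.symm
      · rw [Equiv.Perm.mul_apply, e3, Equiv.Perm.inv_eq_iff_eq]; exact e2'.symm
    have h4 : (fun j => (X j, Z j k)) '' (Set.Ici N) ⊆ Pr G z b x (AA B X Z f) (B k) := by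
      rintro _ ⟨j, hj, rfl⟩
      refine ⟨⟨(none, some j), trivial, rfl⟩, ⟨(some k, some j), hN j hj, rfl⟩, ?_⟩
      obtain ⟨g, hg, e1, e2, e3⟩ := hE
      obtain ⟨g', hg', e1', e2', e3'⟩ := h.hZ j k
      refine ⟨g' * g, G.mul_mem hg' hg, ?_, ?_, ?_⟩
      · rw [Equiv.Perm.mul_apply, e1, e1']
      · rw [Equiv.Perm.mul_apply, e2, e3']
      · rw [Equiv.Perm.mul_apply, e3, e2']
    refine Set.Infinite.mono h4 (Set.Infinite.image ?_ (Set.Ici_infinite N))
    intro j _ j' _ e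
    simp only [Prod.mk.injEq] at e
    exact h.hX e.1

/-- the growth function -/
def ff (c : ℕ → Bool) (i : ℕ) : ℕ := 3 ^ (2 * i + 1 + (c i).toNat)

theorem ff_tendsto (c : ℕ → Bool) : Tendsto (ff c) atTop atTop := by
  refine tendsto_atTop_mono (f := fun i => i) ?_ tendsto_id
  intro i
  calc i ≤ 2 * i + 1 + (c i).toNat := by omega
    _ ≤ 3 ^ (2 * i + 1 + (c i).toNat) := (Nat.lt_pow_self (by norm_num)).le

theorem pow3_unique {m n : ℕ} {N : ℕ∞} (h1 : ((3 ^ m : ℕ) : ℕ∞) ≤ N)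
    (h2 : N ≤ ((2 * 3 ^ m : ℕ) : ℕ∞)) (h3 : ((3 ^ n : ℕ) : ℕ∞) ≤ N)
    (h4 : N ≤ ((2 * 3 ^ n : ℕ) : ℕ∞)) : m = n := by
  have h5 : 3 ^ m ≤ 2 * 3 ^ n := by exact_mod_cast h1.trans h4
  have h6 : 3 ^ n ≤ 2 * 3 ^ m := by exact_mod_cast h3.trans h2
  have h7 : ∀ m n : ℕ, 3 ^ m ≤ 2 * 3 ^ n → m ≤ n := by
    intro m n h
    by_contra hcon
    have h8 : 3 ^ (n + 1) ≤ 3 ^ m := Nat.pow_le_pow_right (by norm_num) (by omega)
    have h9 : 0 < 3 ^ n := by positivity
    rw [pow_succ] at h8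
    omega
  exact le_antisymm (h7 _ _ h5) (h7 _ _ h6)

theorem Cfg.code (h : Cfg G b x z B X Z) (c : ℕ → Bool) (i : ℕ) :
    c i = true ↔ ∃ a ∈ AA B X Z (ff c),
      ((3 ^ (2 * i + 2) : ℕ) : ℕ∞) ≤ (Pr G z b x (AA B X Z (ff c)) a).encard ∧
      (Pr G z b x (AA B X Z (ff c)) a).encard ≤ ((2 * 3 ^ (2 * i + 2) : ℕ) : ℕ∞) := by
  constructor
  · intro hc
    refine ⟨X i, ⟨(none, some i), trivial, rfl⟩, ?_⟩
    have h1 := h.pr_x (ff c) i
    have h2 : ff c i = 3 ^ (2 * i + 2) := by simp [ff, hc]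
    rw [h2] at h1
    exact h1
  · rintro ⟨_, ⟨κ, hκ, rfl⟩, h1, h2⟩
    have h9 : (9 : ℕ) ≤ 3 ^ (2 * i + 2) := by
      calc 9 = 3 ^ 2 := by norm_num
        _ ≤ 3 ^ (2 * i + 2) := Nat.pow_le_pow_right (by norm_num) (by omega)
    obtain ⟨β, ξ⟩ := κ
    cases β with
    | none =>
      cases ξ with
      | none => exact absurd rfl hκ.ne
      | some j =>
        have h3 := h.pr_x (ff c) j
        have h4 : 2 * j + 1 + (c j).toNat = 2 * i + 2 := pow3_unique h3.1 h3.2 h1 h2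
        rcases hc : c j with _ | _
        · rw [hc] at h4
          simp at h4
          omega
        · rw [hc] at h4
          simp at h4
          have : j = i := by omega
          rw [← this]; exact hc
    | some k =>
      cases ξ with
      | none =>
        exfalso
        rcases h.pr_b (ff c) (ff_tendsto c) k with h3 | h3
        · have h1' : ((3 ^ (2 * i + 2) : ℕ) : ℕ∞) ≤ (Pr G z b x (AA B X Z (ff c)) (B k)).encard := h1
          rw [h3] at h1'
          have : 3 ^ (2 * i + 2) ≤ 0 := by exact_mod_cast h1'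
          omega
        · have h2' : (Pr G z b x (AA B X Z (ff c)) (B k)).encard ≤
            ((2 * 3 ^ (2 * i + 2) : ℕ) : ℕ∞) := h2
          rw [h3] at h2'
          exact absurd (top_le_iff.1 h2') (ENat.natCast_ne_top _)
      | some j =>
        exfalso
        have h3 := h.pr_z (ff c) j k
        have h1' : ((3 ^ (2 * i + 2) : ℕ) : ℕ∞) ≤ 2 := h1.trans h3
        have : 3 ^ (2 * i + 2) ≤ 2 := by exact_mod_cast h1'
        omega

theorem Cfg.contra (h : Cfg G b x z B X Z) (hF : Few G) : False := by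
  classical
  apply hF
  refine ⟨fun c n => decide (n ∈ AA B X Z (ff c)), ?_, ?_⟩
  · refine continuous_pi fun n => ?_
    -- the value depends on one coordinate only
    by_cases hn : ∃ k i, Z i k = n
    · obtain ⟨k, i, rfl⟩ := hn
      have h1 : (fun c : ℕ → Bool => decide (Z i k ∈ AA B X Z (ff c))) =
          (fun t : Bool => decide (k < 3 ^ (2 * i + 1 + t.toNat))) ∘ (fun c : ℕ → Bool => c i) := by
        funext c
        show decide _ = decide _
        congr 1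
        refine propext ⟨?_, ?_⟩
        · rintro ⟨κ, hκ, e⟩
          have e' : val B X Z κ = val B X Z (some k, some i) := e
          have := h.inj hκ.ne (by simp) e'
          rw [this] at hκ
          exact hκ
        · intro hk
          exact ⟨(some k, some i), hk, rfl⟩
      rw [h1]
      exact continuous_of_discreteTopology.comp (continuous_apply i)
    · have h1 : (fun c : ℕ → Bool => decide (n ∈ AA B X Z (ff c))) =
          fun _ => decide (n ∈ AA B X Z (ff fun _ => true)) := by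
        funext c
        congr 1
        have h2 : ∀ c c' : ℕ → Bool, n ∈ AA B X Z (ff c) → n ∈ AA B X Z (ff c') := by
          rintro c c' ⟨⟨β, ξ⟩, hκ, e⟩
          cases β with
          | none =>
            cases ξ with
            | none => exact absurd rfl hκ.ne
            | some i => exact ⟨(none, some i), trivial, e⟩
          | some k =>
            cases ξ with
            | none => exact ⟨(some k, none), trivial, e⟩
            | some i => exact absurd ⟨k, i, e⟩ hn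
        exact propext ⟨h2 _ _, h2 _ _⟩
      rw [h1]
      exact continuous_const
  · intro c
    refine (Set.countable_singleton c).mono ?_
    rintro d ⟨g, hg, hgd⟩
    have hA : ∀ n, g n ∈ AA B X Z (ff d) ↔ n ∈ AA B X Z (ff c) := by
      intro n
      have := hgd n
      simpa using this
    funext i
    rw [Bool.eq_iff_iff, h.code d i, h.code c i]
    constructor
    · rintro ⟨a, ha, h1⟩
      refine ⟨g⁻¹ a, ?_, ?_⟩
      · rw [← hA]; simpa using ha
      · rw [← Pr_image hg z b x _ _ hA]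
        simpa using h1
    · rintro ⟨a, ha, h1⟩
      refine ⟨g a, (hA a).2 ha, ?_⟩
      rw [Pr_image hg z b x _ _ hA]
      exact h1

theorem core {G : PG} (hF : Few G) (hN : Nice G) (hE : Exch G) {b x z : ℕ}
    (h1 : z ∈ acl G {b, x}) (h2 : z ∉ acl G {b}) (h3 : z ∉ acl G {x}) : False := by
  have h4 : x ∉ acl G {b} := by
    intro h
    apply h2
    refine acl_sub hN.oli (Set.finite_singleton b) ?_ h1
    rintro y (rfl | rfl)
    · exact subset_acl G _ rfl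
    · exact h
  have h5 : b ∉ acl G {x} := by
    intro h
    apply h3
    refine acl_sub hN.oli (Set.finite_singleton x) ?_ h1
    rintro y (rfl | rfl)
    · exact h
    · exact subset_acl G _ rfl
  have h6 : b ∈ acl G {z, x} := hE {x} (Set.finite_singleton _) z b h3 h1
  have h7 : x ∈ acl G {z, b} := by
    refine hE {b} (Set.finite_singleton _) z x h2 ?_
    rw [Set.pair_comm] at h1
    exact h1
  obtain ⟨B, X, e1, e2, e3, e4, e5⟩ := exists_bx hN hE h5 h4
  have h8 : ∀ i k, ∃ w, E3 G z b x w (B k) (X i) := by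
    intro i k
    obtain ⟨g, hg, g1, g2⟩ := e1 k i
    exact ⟨g z, g, hg, rfl, g1, g2⟩
  choose Z hZ using h8
  have hc : Cfg G b x z B X Z := by
    refine ⟨hN.oli, h1, h6, h7, ?_, ?_, ?_, hZ, e2, e3, e4, e5⟩
    · rintro rfl; exact h2 (subset_acl G _ rfl)
    · rintro rfl; exact h3 (subset_acl G _ rfl)
    · rintro rfl; exact h5 (subset_acl G _ rfl)
  exact hc.contra hF

/-- PART T: the closure is trivial -/
theorem s_triv : S_TRIV := by
  intro G hF hN hE s hs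
  induction s, hs using Set.Finite.induction_on with
  | empty =>
    intro x
    rw [insert_empty_eq]
    exact Set.subset_union_right
  | @insert b s' hb hs' ih =>
    intro x z hz
    by_contra hcon
    rw [Set.mem_union, not_or] at hcon
    obtain ⟨hz1, hz2⟩ := hcon
    have hz3 : z ∉ acl G (insert x s') := by
      intro h
      rcases ih x h with h | h
      · exact hz1 (acl_mono G (Set.subset_insert _ _) h)
      · exact hz2 h
    refine core (G := st G s') (b := b) (x := x) (z := z) (hF s' hs') (hN.st hs') (hE.st hs')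
      ?_ ?_ ?_
    · rw [acl_st]
      have : s' ∪ {b, x} = insert x (insert b s') := by
        ext w; simp; tauto
      rw [this]; exact hz
    · rw [acl_st, Set.union_singleton]; exact hz1
    · rw [acl_st, Set.union_singleton]; exact hz3

end Pool.Agent.L7h26.FP
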